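import Mathlib

namespace Pool.Agent.Results.MP_737f38_pr.NoCriticalAboveOne

open Set Filter Topology

/-- `P(S = k)` for `S` a sum of `m` independent Bernoulli variables with parameters `p i` -/
noncomputable def bern {m : ℕ} (p : Fin m → ℝ) (k : ℕ) : ℝ :=
  ∑ A ∈ Finset.powersetCard k (Finset.univ : Finset (Fin m)),
    ∏ i, if i ∈ A then p i else 1 - p i

/-- the `q`-Renyi entropy of the law of the sum (Shannon entropy for `q = 1`) -/
noncomputable def renyi (q : ℝ) {m : ℕ} (p : Fin m → ℝ) : ℝ :=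
  if q = 1 then - ∑ k ∈ Finset.range (m + 1), bern p k * Real.log (bern p k)
  else (1 / (1 - q)) * Real.log (∑ k ∈ Finset.range (m + 1), bern p k ^ q)

/-- the entropy along the affine path from `a` to `b` -/
noncomputable def phi (q : ℝ) {m : ℕ} (a b : Fin m → ℝ) (t : ℝ) : ℝ :=
  renyi q (fun i => (1 - t) * a i + t * b i)

/-- admissible endpoints -/
def InCube {m : ℕ} (a : Fin m → ℝ) : Prop := ∀ i, 0 ≤ a i ∧ a i ≤ 1

/-- property (i): concavity for all exponents in `(0, c]` -/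
def PropI (c : ℝ) : Prop :=
  ∀ q : ℝ, 0 < q → q ≤ c → ∀ m : ℕ, 1 ≤ m → ∀ a b : Fin m → ℝ, InCube a → InCube b →
    ConcaveOn ℝ (Icc 0 1) (phi q a b)

/-- property (ii): above `c` there is always a convex, non-affine path -/
def PropII (c : ℝ) : Prop :=
  ∀ q : ℝ, c < q → ∃ m : ℕ, 1 ≤ m ∧ ∃ a b : Fin m → ℝ, InCube a ∧ InCube b ∧
    ConvexOn ℝ (Icc 0 1) (phi q a b) ∧
    ¬ (∀ t ∈ Icc (0:ℝ) 1, phi q a b t = (1 - t) * phi q a b 0 + t * phi q a b 1)

/-- `c` is a critical value -/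
def IsCritical (c : ℝ) : Prop := 0 < c ∧ PropI c ∧ PropII c

theorem bern_two (p : Fin 2 → ℝ) :
    bern p 0 = (1 - p 0) * (1 - p 1) ∧ bern p 1 = p 0 * (1 - p 1) + (1 - p 0) * p 1 ∧
      bern p 2 = p 0 * p 1 := by
  have h0 : Finset.powersetCard 0 (Finset.univ : Finset (Fin 2)) = {∅} := by decide
  have h1 : Finset.powersetCard 1 (Finset.univ : Finset (Fin 2)) = {{0}, {1}} := by decide
  have h2 : Finset.powersetCard 2 (Finset.univ : Finset (Fin 2)) = {{0, 1}} := by decide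
  refine ⟨?_, ?_, ?_⟩
  · unfold bern; rw [h0]; simp [Fin.prod_univ_two]
  · unfold bern; rw [h1, Finset.sum_pair (by decide)]; simp [Fin.prod_univ_two]
  · unfold bern; rw [h2]; simp [Fin.prod_univ_two]

/-- the power sum as a function of `s = p₁ p₂`, for `p₁ + p₂ = 2 e` -/
noncomputable def F (q e s : ℝ) : ℝ := (1 - 2 * e + s) ^ q + (2 * e - 2 * s) ^ q + s ^ q

/-- its derivative divided by `q` -/
noncomputable def F' (q e s : ℝ) : ℝ :=
  (1 - 2 * e + s) ^ (q - 1) - 2 * (2 * e - 2 * s) ^ (q - 1) + s ^ (q - 1)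

theorem exists_e (q : ℝ) (hq : 1 < q) : ∃ e : ℝ, 0 < e ∧ e < 1 / 4 ∧ 0 < F' q e (e ^ 2) := by
  have hc : ContinuousAt (fun e : ℝ => F' q e (e ^ 2)) 0 := by
    unfold F'
    have hr : ∀ x : ℝ, ContinuousAt (fun y : ℝ => y ^ (q - 1)) x := fun x =>
      Real.continuousAt_rpow_const x (q - 1) (Or.inr (by linarith))
    refine ContinuousAt.add (ContinuousAt.sub ?_ (continuousAt_const.mul ?_)) ?_
    · exact ContinuousAt.comp (f := fun e : ℝ => 1 - 2 * e + e ^ 2) (hr _) (by fun_prop)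
    · exact ContinuousAt.comp (f := fun e : ℝ => 2 * e - 2 * e ^ 2) (hr _) (by fun_prop)
    · exact ContinuousAt.comp (f := fun e : ℝ => e ^ 2) (hr _) (by fun_prop)
  have h0 : 0 < F' q 0 (0 ^ 2) := by
    unfold F'
    have : (0:ℝ) ^ (q - 1) = 0 := Real.zero_rpow (by linarith)
    norm_num
    rw [this]
    norm_num
  have h1 : ∀ᶠ e in 𝓝 (0:ℝ), 0 < F' q e (e ^ 2) := hc.eventually (lt_mem_nhds h0)
  have h2 : ∀ᶠ e in 𝓝[>] (0:ℝ), 0 < F' q e (e ^ 2) := h1.filter_mono nhdsWithin_le_nhds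
  have h3 : ∀ᶠ e in 𝓝[>] (0:ℝ), e ∈ Ioo (0:ℝ) (1 / 4) := Ioo_mem_nhdsGT (by norm_num)
  obtain ⟨e, he1, he2⟩ := (h2.and h3).exists
  exact ⟨e, he2.1, he2.2, he1⟩

theorem hasDeriv_F (q e s : ℝ) (h0 : 0 < 1 - 2 * e + s) (h1 : 0 < 2 * e - 2 * s) (h2 : 0 < s) :
    HasDerivAt (F q e) (q * F' q e s) s := by
  unfold F F'
  have d0 : HasDerivAt (fun s : ℝ => (1 - 2 * e + s) ^ q) (1 * q * (1 - 2 * e + s) ^ (q - 1)) s :=
    HasDerivAt.rpow_const ((hasDerivAt_id s).const_add (1 - 2 * e)) (Or.inl h0.ne')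
  have d1 : HasDerivAt (fun s : ℝ => (2 * e - 2 * s) ^ q)
      ((-(2 * 1)) * q * (2 * e - 2 * s) ^ (q - 1)) s :=
    HasDerivAt.rpow_const (((hasDerivAt_id s).const_mul 2).const_sub (2 * e)) (Or.inl h1.ne')
  have d2 : HasDerivAt (fun s : ℝ => s ^ q) (1 * q * s ^ (q - 1)) s :=
    HasDerivAt.rpow_const (hasDerivAt_id s) (Or.inl h2.ne')
  refine ((d0.add d1).add d2).congr_deriv ?_
  ring

theorem F_pos (q e s : ℝ) (h0 : 0 < 1 - 2 * e + s) (h1 : 0 < 2 * e - 2 * s) (h2 : 0 < s) :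
    0 < F q e s := by
  unfold F
  have a := Real.rpow_pos_of_pos h0 q
  have b := Real.rpow_pos_of_pos h1 q
  have c := Real.rpow_pos_of_pos h2 q
  linarith

/-- the entropy as a function of `w`, where `p₁ = e (1 + w)`, `p₂ = e (1 - w)` -/
noncomputable def G (q e w : ℝ) : ℝ := (1 / (1 - q)) * Real.log (F q e (e ^ 2 - e ^ 2 * w ^ 2))

noncomputable def K (q e w : ℝ) : ℝ :=
  (2 * e ^ 2 * q / (q - 1)) * (F' q e (e ^ 2 - e ^ 2 * w ^ 2) / F q e (e ^ 2 - e ^ 2 * w ^ 2))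

theorem bounds (e w : ℝ) (he : 0 < e) (he' : e < 1 / 4) (hw : |w| < 1) :
    0 < 1 - 2 * e + (e ^ 2 - e ^ 2 * w ^ 2) ∧ 0 < 2 * e - 2 * (e ^ 2 - e ^ 2 * w ^ 2) ∧
      0 < e ^ 2 - e ^ 2 * w ^ 2 := by
  have hw2 : w ^ 2 < 1 := by
    rw [← sq_abs]; nlinarith [abs_nonneg w]
  have h3 : 0 < e ^ 2 - e ^ 2 * w ^ 2 := by nlinarith [pow_pos he 2]
  have h4 : e ^ 2 - e ^ 2 * w ^ 2 ≤ e ^ 2 := by nlinarith [mul_nonneg (sq_nonneg e) (sq_nonneg w)]
  exact ⟨by linarith, by nlinarith, h3⟩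

theorem hasDeriv_G (q e w : ℝ) (hq : 1 < q) (he : 0 < e) (he' : e < 1 / 4) (hw : |w| < 1) :
    HasDerivAt (G q e) (w * K q e w) w := by
  obtain ⟨h0, h1, h2⟩ := bounds e w he he' hw
  have hF := hasDeriv_F q e _ h0 h1 h2
  have hFp := F_pos q e _ h0 h1 h2
  have hs : HasDerivAt (fun w : ℝ => e ^ 2 - e ^ 2 * w ^ 2) (-(e ^ 2 * (2 * w))) w := by
    have := ((hasDerivAt_pow 2 w).const_mul (e ^ 2)).const_sub (e ^ 2)
    simpa using this
  have hc := HasDerivAt.comp w hF hs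
  have hl := (hc.log hFp.ne').const_mul (1 / (1 - q))
  refine hl.congr_deriv ?_
  unfold K
  simp only [Function.comp]
  have hq1 : q - 1 ≠ 0 := by linarith
  have hq2 : 1 - q ≠ 0 := by linarith
  field_simp
  ring

theorem contDiff_M (q e : ℝ) (he : 0 < e) (he' : e < 1 / 4) :
    ContDiffAt ℝ 1 (fun w => w * K q e w) 0 := by
  obtain ⟨h0, h1, h2⟩ := bounds e 0 he he' (by simp)
  have hFp := F_pos q e _ h0 h1 h2
  have a0 : ContDiffAt ℝ 1 (fun w : ℝ => 1 - 2 * e + (e ^ 2 - e ^ 2 * w ^ 2)) 0 := by fun_prop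
  have a1 : ContDiffAt ℝ 1 (fun w : ℝ => 2 * e - 2 * (e ^ 2 - e ^ 2 * w ^ 2)) 0 := by fun_prop
  have a2 : ContDiffAt ℝ 1 (fun w : ℝ => e ^ 2 - e ^ 2 * w ^ 2) 0 := by fun_prop
  have hF : ContDiffAt ℝ 1 (fun w : ℝ => F q e (e ^ 2 - e ^ 2 * w ^ 2)) 0 := by
    unfold F
    exact ((a0.rpow_const_of_ne h0.ne').add (a1.rpow_const_of_ne h1.ne')).add
      (a2.rpow_const_of_ne h2.ne')
  have hF' : ContDiffAt ℝ 1 (fun w : ℝ => F' q e (e ^ 2 - e ^ 2 * w ^ 2)) 0 := by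
    unfold F'
    exact ((a0.rpow_const_of_ne h0.ne').sub (contDiffAt_const.mul
      (a1.rpow_const_of_ne h1.ne'))).add (a2.rpow_const_of_ne h2.ne')
  unfold K
  exact contDiffAt_id.mul (contDiffAt_const.mul (hF'.div hF hFp.ne'))

theorem exists_strict (q : ℝ) (hq : 1 < q) : ∃ e d : ℝ, 0 < e ∧ e < 1 / 4 ∧ 0 < d ∧ d < 1 ∧
    StrictConvexOn ℝ (Icc (-d) d) (G q e) := by
  obtain ⟨e, he, he', hpos⟩ := exists_e q hq
  have hM := contDiff_M q e he he'
  have hK0 : 0 < K q e 0 := by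
    unfold K
    obtain ⟨h0, h1, h2⟩ := bounds e 0 he he' (by simp)
    have hFp := F_pos q e _ h0 h1 h2
    have hs : e ^ 2 - e ^ 2 * (0:ℝ) ^ 2 = e ^ 2 := by ring
    rw [hs] at hFp ⊢
    have : 0 < q - 1 := by linarith
    positivity
  obtain ⟨f', u, hu, hcont, hder⟩ := contDiffAt_one_iff.mp hM
  have h0u : (0:ℝ) ∈ u := mem_of_mem_nhds hu
  have hd0 : f' 0 1 = K q e 0 := by
    have h1 := (hder 0 h0u).hasDerivAt
    obtain ⟨g', v, hv, hcg, hg⟩ := contDiffAt_one_iff.mp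
      (contDiffAt_const (c := (0:ℝ)) : ContDiffAt ℝ 1 (fun _ : ℝ => (0:ℝ)) 0)
    have hcK : ContinuousAt (K q e) 0 := by
      obtain ⟨h0, h1, h2⟩ := bounds e 0 he he' (by simp)
      have hFp := F_pos q e _ h0 h1 h2
      unfold K F F'
      have r : ∀ (c y : ℝ), 0 < y → ContinuousAt (fun z : ℝ => z ^ c) y := fun c y hy =>
        Real.continuousAt_rpow_const y c (Or.inl hy.ne')
      have b0 : ∀ c : ℝ, ContinuousAt (fun w : ℝ => (1 - 2 * e + (e ^ 2 - e ^ 2 * w ^ 2)) ^ c) 0 :=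
        fun c => ContinuousAt.comp (f := fun w : ℝ => 1 - 2 * e + (e ^ 2 - e ^ 2 * w ^ 2))
          (r c _ h0) (by fun_prop)
      have b1 : ∀ c : ℝ, ContinuousAt (fun w : ℝ => (2 * e - 2 * (e ^ 2 - e ^ 2 * w ^ 2)) ^ c) 0 :=
        fun c => ContinuousAt.comp (f := fun w : ℝ => 2 * e - 2 * (e ^ 2 - e ^ 2 * w ^ 2))
          (r c _ h1) (by fun_prop)
      have b2 : ∀ c : ℝ, ContinuousAt (fun w : ℝ => (e ^ 2 - e ^ 2 * w ^ 2) ^ c) 0 :=
        fun c => ContinuousAt.comp (f := fun w : ℝ => (e ^ 2 - e ^ 2 * w ^ 2))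
          (r c _ h2) (by fun_prop)
      refine continuousAt_const.mul (ContinuousAt.div ?_ ?_ hFp.ne')
      · exact ((b0 _).sub (continuousAt_const.mul (b1 _))).add (b2 _)
      · exact ((b0 _).add (b1 _)).add (b2 _)
    have h2 : HasDerivAt (fun w => w * K q e w) (K q e 0) 0 := by
      rw [hasDerivAt_iff_tendsto_slope]
      have h3 : Tendsto (K q e) (𝓝[≠] 0) (𝓝 (K q e 0)) := hcK.tendsto.mono_left nhdsWithin_le_nhds
      refine h3.congr' ?_
      filter_upwards [self_mem_nhdsWithin] with w hw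
      have hw' : w ≠ 0 := hw
      simp only [slope, vsub_eq_sub, sub_zero, zero_mul, smul_eq_mul]
      field_simp
    exact h1.unique h2
  have hcu : ContinuousAt (fun w => f' w 1) 0 := by
    have := hcont.continuousAt hu
    exact (this.clm_apply continuousAt_const)
  have hev : ∀ᶠ w in 𝓝 (0:ℝ), 0 < f' w 1 :=
    hcu.eventually (lt_mem_nhds (by show 0 < f' 0 1; rw [hd0]; exact hK0))
  obtain ⟨d, hd, hball⟩ := Metric.eventually_nhds_iff.mp (hev.and hu)
  set d' := min (d / 2) (1 / 2) with hd'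
  have hd'0 : 0 < d' := by positivity
  have hd'1 : d' < 1 := lt_of_le_of_lt (min_le_right _ _) (by norm_num)
  have hmem : ∀ w ∈ Icc (-d') d', |w| < 1 ∧ 0 < f' w 1 ∧ w ∈ u := by
    intro w hw
    have h1 : |w| ≤ d' := abs_le.mpr ⟨hw.1, hw.2⟩
    have h2 : |w| < d := by
      refine lt_of_le_of_lt h1 (lt_of_le_of_lt (min_le_left _ _) (by linarith))
    have h3 := hball (y := w) (by rw [Real.dist_eq, sub_zero]; exact h2)
    exact ⟨lt_of_le_of_lt h1 hd'1, h3.1, h3.2⟩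
  refine ⟨e, d', he, he', hd'0, hd'1, ?_⟩
  apply StrictMonoOn.strictConvexOn_of_deriv (convex_Icc _ _)
  · intro w hw
    exact (hasDeriv_G q e w hq he he' (hmem w hw).1).continuousAt.continuousWithinAt
  · have h1 : StrictMonoOn (fun w => w * K q e w) (Icc (-d') d') := by
      apply strictMonoOn_of_deriv_pos (convex_Icc _ _)
      · intro w hw
        exact ((hder w (hmem w hw).2.2).continuousAt).continuousWithinAt
      · intro w hw
        have hw' := interior_subset hw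
        rw [(hder w (hmem w hw').2.2).hasDerivAt.deriv]
        exact (hmem w hw').2.1
    intro x hx y hy hxy
    have hx' := interior_subset hx
    have hy' := interior_subset hy
    rw [(hasDeriv_G q e x hq he he' (hmem x hx').1).deriv,
      (hasDeriv_G q e y hq he he' (hmem y hy').1).deriv]
    exact h1 hx' hy' hxy

theorem phi_eq (q e d : ℝ) (hq : 1 < q) (t : ℝ) :
    phi q ![e * (1 + d), e * (1 - d)] ![e * (1 - d), e * (1 + d)] t = G q e (d * (1 - 2 * t)) := by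
  unfold phi renyi G F
  rw [if_neg (ne_of_gt hq)]
  obtain ⟨h0, h1, h2⟩ := bern_two (fun i : Fin 2 =>
    (1 - t) * (![e * (1 + d), e * (1 - d)] : Fin 2 → ℝ) i +
      t * (![e * (1 - d), e * (1 + d)] : Fin 2 → ℝ) i)
  rw [Finset.sum_range_succ, Finset.sum_range_succ, Finset.sum_range_one, h0, h1, h2]
  simp only [Matrix.cons_val_zero, Matrix.cons_val_one]
  congr 2
  congr 1
  · congr 1
    · congr 1; ring
    · congr 1; ring
  · congr 1; ring

theorem exists_path (q : ℝ) (hq : 1 < q) : ∃ a b : Fin 2 → ℝ, InCube a ∧ InCube b ∧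
    StrictConvexOn ℝ (Icc 0 1) (phi q a b) := by
  obtain ⟨e, d, he, he', hd, hd', hG⟩ := exists_strict q hq
  refine ⟨![e * (1 + d), e * (1 - d)], ![e * (1 - d), e * (1 + d)], ?_, ?_, ?_⟩
  · intro i
    fin_cases i
    · constructor
      · show 0 ≤ e * (1 + d); positivity
      · show e * (1 + d) ≤ 1; nlinarith
    · constructor
      · show 0 ≤ e * (1 - d); apply mul_nonneg he.le; linarith
      · show e * (1 - d) ≤ 1; nlinarith
  · intro i
    fin_cases i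
    · constructor
      · show 0 ≤ e * (1 - d); apply mul_nonneg he.le; linarith
      · show e * (1 - d) ≤ 1; nlinarith
    · constructor
      · show 0 ≤ e * (1 + d); positivity
      · show e * (1 + d) ≤ 1; nlinarith
  · refine ⟨convex_Icc 0 1, ?_⟩
    intro x hx y hy hxy r s hr hs hrs
    rw [phi_eq q e d hq, phi_eq q e d hq, phi_eq q e d hq]
    have hmem : ∀ z ∈ Icc (0:ℝ) 1, d * (1 - 2 * z) ∈ Icc (-d) d := by
      intro z hz
      constructor
      · nlinarith [hz.1, hz.2]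
      · nlinarith [hz.1, hz.2]
    have hne : d * (1 - 2 * x) ≠ d * (1 - 2 * y) := by
      intro h
      apply hxy
      have := mul_left_cancel₀ hd.ne' h
      linarith
    have h := hG.2 (hmem x hx) (hmem y hy) hne hr hs hrs
    have e1 : r • (d * (1 - 2 * x)) + s • (d * (1 - 2 * y)) =
        d * (1 - 2 * (r • x + s • y)) := by
      simp only [smul_eq_mul]
      have : s = 1 - r := by linarith
      rw [this]; ring
    rw [e1] at h
    exact h

theorem not_concave {f : ℝ → ℝ} (h : StrictConvexOn ℝ (Icc 0 1) f) :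
    ¬ ConcaveOn ℝ (Icc 0 1) f := by
  intro hc
  have h0 : (0:ℝ) ∈ Icc (0:ℝ) 1 := ⟨le_rfl, zero_le_one⟩
  have h1 : (1:ℝ) ∈ Icc (0:ℝ) 1 := ⟨zero_le_one, le_rfl⟩
  have a := h.2 h0 h1 zero_ne_one (show (0:ℝ) < 1 / 2 by norm_num)
    (show (0:ℝ) < 1 / 2 by norm_num) (by norm_num)
  have b := hc.2 h0 h1 (show (0:ℝ) ≤ 1 / 2 by norm_num) (show (0:ℝ) ≤ 1 / 2 by norm_num)
    (by norm_num)
  exact absurd (lt_of_lt_of_le a b) (lt_irrefl _)

theorem propII_one : PropII 1 := by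
  intro q hq
  obtain ⟨a, b, ha, hb, h⟩ := exists_path q hq
  refine ⟨2, by norm_num, a, b, ha, hb, h.convexOn, ?_⟩
  intro haff
  have h0 : (0:ℝ) ∈ Icc (0:ℝ) 1 := ⟨le_rfl, zero_le_one⟩
  have h1 : (1:ℝ) ∈ Icc (0:ℝ) 1 := ⟨zero_le_one, le_rfl⟩
  have s := h.2 h0 h1 zero_ne_one (show (0:ℝ) < 1 / 2 by norm_num)
    (show (0:ℝ) < 1 / 2 by norm_num) (by norm_num)
  have e := haff (1 / 2) ⟨by norm_num, by norm_num⟩
  simp only [smul_eq_mul] at s
  have hz : (1 / 2 * 0 + 1 / 2 * 1 : ℝ) = 1 / 2 := by norm_num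
  rw [hz, e] at s
  linarith

theorem critical_le_one (c : ℝ) (hc : IsCritical c) : c ≤ 1 := by
  by_contra h
  have h' : 1 < c := not_le.mp h
  obtain ⟨a, b, ha, hb, hs⟩ := exists_path c h'
  exact not_concave hs (hc.2.1 c hc.1 le_rfl 2 (by norm_num) a b ha hb)

theorem critical_eq_one
    (HJ : ∀ m : ℕ, 1 ≤ m → ∀ a b : Fin m → ℝ, InCube a → InCube b →
      ConcaveOn ℝ (Icc 0 1) (phi 1 a b)) (c : ℝ) (hc : IsCritical c) : c = 1 := by
  refine le_antisymm (critical_le_one c hc) ?_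
  by_contra h
  have h' : c < 1 := not_le.mp h
  obtain ⟨m, hm, a, b, ha, hb, hconv, hna⟩ := hc.2.2 1 h'
  have hconc := HJ m hm a b ha hb
  apply hna
  intro t ht
  have h0 : (0:ℝ) ∈ Icc (0:ℝ) 1 := ⟨le_rfl, zero_le_one⟩
  have h1 : (1:ℝ) ∈ Icc (0:ℝ) 1 := ⟨zero_le_one, le_rfl⟩
  have x := hconv.2 h0 h1 (show 0 ≤ 1 - t by linarith [ht.2]) ht.1 (by ring)
  have y := hconc.2 h0 h1 (show 0 ≤ 1 - t by linarith [ht.2]) ht.1 (by ring)
  simp only [smul_eq_mul, mul_zero, mul_one, zero_add] at x y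
  linarith

/-- For every `q > 1` there is an affine path (with `m = 2`) along which the `q`-Renyi entropy of
the Bernoulli sum is strictly convex. Hence property (ii) holds for the value `1`, no critical
value exceeds `1`, and the conjectured critical value `2` is not one; combined with the
Hillion–Johnson theorem (concavity for `q = 1`), the only possible critical value is `1`. -/
theorem result :
    (∀ q : ℝ, 1 < q → ∃ a b : Fin 2 → ℝ, InCube a ∧ InCube b ∧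
      StrictConvexOn ℝ (Icc 0 1) (phi q a b)) ∧
    PropII 1 ∧
    (∀ c : ℝ, IsCritical c → c ≤ 1) ∧
    ¬ IsCritical 2 ∧
    ((∀ m : ℕ, 1 ≤ m → ∀ a b : Fin m → ℝ, InCube a → InCube b →
      ConcaveOn ℝ (Icc 0 1) (phi 1 a b)) → ∀ c : ℝ, IsCritical c → c = 1) := by
  refine ⟨exists_path, propII_one, critical_le_one, ?_, critical_eq_one⟩
  intro h
  have := critical_le_one 2 h
  norm_num at this

end Pool.Agent.Results.MP_737f38_pr.NoCriticalAboveOne
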